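import Pool.Agent.H61.AR.Targets

/-!
# The area of surfaces of constant mean curvature spanning a circle, row BLM
-/

set_option autoImplicit false

open Set Function MeasureTheory Filter Topology
open scoped Manifold ContDiff Matrix

namespace Pool.Agent.H67.AR

open Pool.Agent.H61.AR Pool.Agent.H60.CM

theorem pf_BLM : T_BLM := by
  intro r c u v hr hc hu hv
  obtain ⟨hc2, hcc⟩ := hc
  have hcc' : c 0 ^ 2 + c 1 ^ 2 = r ^ 2 := by
    rw [← hcc]
    simp only [dotProduct, Fin.sum_univ_three, hc2]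
    ring
  have hq : ∀ θ, sqd (cpt r θ) c = 2 * r * (r - c 0 * Real.cos θ - c 1 * Real.sin θ) := by
    intro θ
    have h := Real.sin_sq_add_cos_sq θ
    simp only [sqd, cpt, dotProduct, Fin.sum_univ_three, Pi.sub_apply, Matrix.cons_val_zero,
      Matrix.cons_val_one, Matrix.cons_val, hc2]
    linear_combination (r ^ 2) * h + hcc'
  have hn : ∀ θ, (cpt r θ - c) ⬝ᵥ ![v θ * Real.cos θ, v θ * Real.sin θ, -u θ] =
      v θ * (r - c 0 * Real.cos θ - c 1 * Real.sin θ) := by
    intro θ
    have h := Real.sin_sq_add_cos_sq θ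
    simp only [cpt, dotProduct, Fin.sum_univ_three, Pi.sub_apply, Matrix.cons_val_zero,
      Matrix.cons_val_one, Matrix.cons_val, hc2]
    linear_combination (r * v θ) * h
  have hq0 : ∀ θ, 0 ≤ sqd (cpt r θ) c := by
    intro θ
    simp only [sqd, dotProduct, Fin.sum_univ_three]
    nlinarith [mul_self_nonneg ((cpt r θ - c) 0), mul_self_nonneg ((cpt r θ - c) 1),
      mul_self_nonneg ((cpt r θ - c) 2)]
  have hF : ∀ ε θ : ℝ, r * ((cpt r θ - c) ⬝ᵥ ![v θ * Real.cos θ, v θ * Real.sin θ, -u θ]) /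
      (sqd (cpt r θ) c + ε ^ 2) =
      v θ * (sqd (cpt r θ) c / (sqd (cpt r θ) c + ε ^ 2)) / 2 := by
    intro ε θ
    rw [hn, hq]
    ring
  have hqc : Continuous fun θ => sqd (cpt r θ) c := by
    have h : (fun θ => sqd (cpt r θ) c) =
        fun θ => 2 * r * (r - c 0 * Real.cos θ - c 1 * Real.sin θ) := funext hq
    rw [h]
    fun_prop
  have hcount : {θ | sqd (cpt r θ) c = 0}.Countable := by
    rcases Set.eq_empty_or_nonempty {θ | sqd (cpt r θ) c = 0} with h | ⟨θ₁, hθ₁⟩
    · rw [h]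
      exact countable_empty
    · have key : ∀ θ, sqd (cpt r θ) c = 0 → c 0 = r * Real.cos θ ∧ c 1 = r * Real.sin θ := by
        intro θ hθ
        have h3 := hθ
        simp only [sqd, cpt, dotProduct, Fin.sum_univ_three, Pi.sub_apply, Matrix.cons_val_zero,
          Matrix.cons_val_one, Matrix.cons_val, hc2] at h3
        have h4 : (r * Real.cos θ - c 0) ^ 2 + (r * Real.sin θ - c 1) ^ 2 = 0 := by
          linear_combination h3
        have h5 : r * Real.cos θ - c 0 = 0 := by
          nlinarith [sq_nonneg (r * Real.cos θ - c 0), sq_nonneg (r * Real.sin θ - c 1)]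
        have h6 : r * Real.sin θ - c 1 = 0 := by
          nlinarith [sq_nonneg (r * Real.cos θ - c 0), sq_nonneg (r * Real.sin θ - c 1)]
        exact ⟨by linarith, by linarith⟩
      obtain ⟨h1, h2⟩ := key θ₁ hθ₁
      refine (countable_range fun k : ℤ => θ₁ + (k : ℝ) * (2 * Real.pi)).mono ?_
      intro θ hθ
      obtain ⟨h3, h4⟩ := key θ hθ
      have h5 : Real.cos (θ - θ₁) = 1 := by
        rw [Real.cos_sub]
        have h6 : r ^ 2 * (Real.cos θ * Real.cos θ₁ + Real.sin θ * Real.sin θ₁) = r ^ 2 * 1 := by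
          have h7 : r ^ 2 * (Real.cos θ * Real.cos θ₁ + Real.sin θ * Real.sin θ₁) =
            (r * Real.cos θ) * (r * Real.cos θ₁) + (r * Real.sin θ) * (r * Real.sin θ₁) := by ring
          rw [h7, ← h1, ← h2, ← h3, ← h4]
          linear_combination hcc'
        exact mul_left_cancel₀ (pow_ne_zero 2 hr.ne') h6
      obtain ⟨k, hk⟩ := (Real.cos_eq_one_iff _).1 h5
      refine ⟨k, ?_⟩
      dsimp only
      linarith
  simp only [hF]
  have hlim : (∫ θ in (0 : ℝ)..(2 * Real.pi), v θ) / 2 =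
      ∫ θ in (0 : ℝ)..(2 * Real.pi), v θ / 2 := by
    rw [intervalIntegral.integral_div]
  rw [hlim]
  refine intervalIntegral.tendsto_integral_filter_of_dominated_convergence (fun θ => |v θ|)
    ?_ ?_ ?_ ?_
  · filter_upwards [self_mem_nhdsWithin] with ε hε
    have hε' : (0 : ℝ) < ε := hε
    refine Continuous.aestronglyMeasurable ?_
    refine Continuous.div_const (hv.mul (hqc.div (hqc.add continuous_const) fun θ => ?_)) 2
    have h0 := hq0 θ
    have h1 : 0 < sqd (cpt r θ) c + ε ^ 2 := by positivity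
    exact h1.ne'
  · filter_upwards [self_mem_nhdsWithin] with ε hε
    have hε' : (0 : ℝ) < ε := hε
    refine Eventually.of_forall fun θ _ => ?_
    have h0 := hq0 θ
    have hpos : 0 < sqd (cpt r θ) c + ε ^ 2 := by positivity
    have h1 : sqd (cpt r θ) c / (sqd (cpt r θ) c + ε ^ 2) ≤ 1 := by
      rw [div_le_one hpos]
      nlinarith
    have h2 : 0 ≤ sqd (cpt r θ) c / (sqd (cpt r θ) c + ε ^ 2) := div_nonneg h0 hpos.le
    rw [Real.norm_eq_abs, abs_div, abs_mul, abs_of_nonneg h2, abs_two]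
    have h3 := abs_nonneg (v θ)
    nlinarith [mul_nonneg h3 h2, mul_le_mul_of_nonneg_left h1 h3]
  · exact (hv.abs).intervalIntegrable _ _
  · have hae : ∀ᵐ θ : ℝ, sqd (cpt r θ) c ≠ 0 := by
      have h := hcount.ae_notMem (volume : Measure ℝ)
      filter_upwards [h] with θ hθ
      exact hθ
    filter_upwards [hae] with θ hθ _
    have h1 : Tendsto (fun ε : ℝ => sqd (cpt r θ) c + ε ^ 2) (𝓝[>] 0)
        (𝓝 (sqd (cpt r θ) c + 0 ^ 2)) :=
      ((continuous_const.add (continuous_pow 2)).tendsto 0).mono_left nhdsWithin_le_nhds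
    have h2 : Tendsto (fun ε : ℝ => sqd (cpt r θ) c / (sqd (cpt r θ) c + ε ^ 2)) (𝓝[>] 0)
        (𝓝 (sqd (cpt r θ) c / (sqd (cpt r θ) c + 0 ^ 2))) :=
      tendsto_const_nhds.div h1 (by simpa using hθ)
    have h3 : sqd (cpt r θ) c / (sqd (cpt r θ) c + 0 ^ 2) = 1 := by
      rw [zero_pow two_ne_zero, add_zero, div_self hθ]
    rw [h3] at h2
    have h4 := (h2.const_mul (v θ)).div_const 2
    rw [mul_one] at h4
    exact h4

end Pool.Agent.H67.AR
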