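import Pool.Agent.H61.AR.Targets

/-!
# The area of surfaces of constant mean curvature spanning a circle, row PI
-/

set_option autoImplicit false

open Set Function MeasureTheory Filter Topology
open scoped Manifold ContDiff Matrix

namespace Pool.Agent.H67.AR

open Pool.Agent.H61.AR Pool.Agent.H60.CM

private theorem finr : Module.finrank ℝ E2 = 2 := finrank_euclideanSpace_fin

private theorem radial_int : Integrable (fun z : E2 => 1 / (‖z‖ ^ 2 + 1) ^ 2) := by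
  have h := integrable_rpow_neg_one_add_norm_sq (E := E2) (μ := volume) (r := 4)
    (by rw [finr]; norm_num)
  refine h.congr (Eventually.of_forall fun z => ?_)
  have h0 : (0 : ℝ) ≤ 1 + ‖z‖ ^ 2 := by positivity
  have h1 : (-(4 : ℝ) / 2) = -((2 : ℕ) : ℝ) := by norm_num
  change (1 + ‖z‖ ^ 2) ^ (-(4 : ℝ) / 2) = 1 / (‖z‖ ^ 2 + 1) ^ 2
  rw [h1, Real.rpow_neg h0, Real.rpow_natCast, one_div, add_comm]

private theorem radial_val : ∫ z : E2, 1 / (‖z‖ ^ 2 + 1) ^ 2 = Real.pi := by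
  have h := integral_fun_norm_addHaar (E := E2) (F := ℝ) volume
    (fun t => 1 / (t ^ 2 + 1) ^ 2)
  rw [h, finr]
  have h2 : (volume : Measure E2).real (Metric.ball 0 1) = Real.pi := by
    rw [Measure.real, EuclideanSpace.volume_ball_fin_two]
    rw [ENNReal.ofReal_one, one_pow, one_mul, ENNReal.toReal_ofReal Real.pi_pos.le]
  rw [h2]
  have h3 : ∫ y in Ioi (0 : ℝ), y ^ (2 - 1) • (1 / (y ^ 2 + 1) ^ 2) = 1 / 2 := by
    have hd : ∀ x ∈ Ici (0 : ℝ), HasDerivAt (fun y : ℝ => -(1 / 2) * (y ^ 2 + 1)⁻¹)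
        (x ^ (2 - 1) • (1 / (x ^ 2 + 1) ^ 2)) x := by
      intro x _
      have h0 : x ^ 2 + 1 ≠ 0 := by positivity
      have h4 : HasDerivAt (fun y : ℝ => y ^ 2 + 1) (2 * x) x := by
        have h5 := (hasDerivAt_pow 2 x).add_const (1 : ℝ)
        simpa using h5
      have h6 := (h4.inv h0).const_mul (-(1 / 2) : ℝ)
      refine h6.congr_deriv ?_
      rw [smul_eq_mul]
      field_simp
      norm_num
    have ht : Tendsto (fun y : ℝ => -(1 / 2) * (y ^ 2 + 1)⁻¹) atTop (𝓝 0) := by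
      have h5 : Tendsto (fun y : ℝ => y ^ 2 + 1) atTop atTop :=
        tendsto_atTop_add_const_right _ _ (tendsto_pow_atTop two_ne_zero)
      have h6 := (tendsto_inv_atTop_zero.comp h5).const_mul (-(1 / 2) : ℝ)
      rw [mul_zero] at h6
      exact h6
    have hpos : ∀ x ∈ Ioi (0 : ℝ), 0 ≤ x ^ (2 - 1) • (1 / (x ^ 2 + 1) ^ 2) := by
      intro x hx
      have hx' : (0 : ℝ) < x := hx
      rw [smul_eq_mul]
      positivity
    rw [integral_Ioi_of_hasDerivAt_of_nonneg' hd hpos ht]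
    norm_num
  rw [h3]
  simp only [smul_eq_mul, nsmul_eq_mul]
  push_cast
  ring

theorem pf_PI : T_PI := by
  intro L₀ L₁ hL
  obtain ⟨E, hE⟩ : ∃ E, E = L₀ ⬝ᵥ L₀ := ⟨_, rfl⟩
  obtain ⟨F, hF⟩ : ∃ F, F = L₀ ⬝ᵥ L₁ := ⟨_, rfl⟩
  obtain ⟨G, hG⟩ : ∃ G, G = L₁ ⬝ᵥ L₁ := ⟨_, rfl⟩
  obtain ⟨J, hJ⟩ : ∃ J, J = (L₀ ⨯₃ L₁) ⬝ᵥ (L₀ ⨯₃ L₁) := ⟨_, rfl⟩
  have hJE : J = E * G - F ^ 2 := by
    rw [hJ, hE, hF, hG]
    simp only [cross_apply, dotProduct, Fin.sum_univ_three, Matrix.cons_val_zero,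
      Matrix.cons_val_one, Matrix.cons_val]
    ring
  have hJpos : 0 < J := by
    rw [hJ]
    have h1 : 0 ≤ (L₀ ⨯₃ L₁) ⬝ᵥ (L₀ ⨯₃ L₁) := by
      simp only [dotProduct]
      exact Finset.sum_nonneg fun i _ => mul_self_nonneg _
    rcases h1.lt_or_eq with h | h
    · exact h
    · exact absurd (dotProduct_self_eq_zero.1 h.symm) hL
  have hEpos : 0 < E := by
    have h1 : 0 ≤ E := by
      rw [hE]
      simp only [dotProduct]
      exact Finset.sum_nonneg fun i _ => mul_self_nonneg _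
    rcases h1.lt_or_eq with h | h
    · exact h
    · rw [← h] at hJE
      nlinarith [sq_nonneg F]
  have hQ : ∀ y : E2, (y 0 • L₀ + y 1 • L₁) ⬝ᵥ (y 0 • L₀ + y 1 • L₁) =
      E * y 0 ^ 2 + 2 * F * y 0 * y 1 + G * y 1 ^ 2 := by
    intro y
    rw [hE, hF, hG]
    simp only [dotProduct, Fin.sum_univ_three, Pi.add_apply, Pi.smul_apply, smul_eq_mul]
    ring
  -- the linear map
  obtain ⟨A, hA⟩ : ∃ A : Matrix (Fin 2) (Fin 2) ℝ,
    A = !![Real.sqrt E, F / Real.sqrt E; 0, Real.sqrt (J / E)] := ⟨_, rfl⟩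
  obtain ⟨T, hT⟩ : ∃ T : E2 →ₗ[ℝ] E2, T = Matrix.toEuclideanLin A := ⟨_, rfl⟩
  have hsE : Real.sqrt E ^ 2 = E := Real.sq_sqrt hEpos.le
  have hsE0 : Real.sqrt E ≠ 0 := (Real.sqrt_pos.2 hEpos).ne'
  have hsJ : Real.sqrt (J / E) ^ 2 = J / E := Real.sq_sqrt (div_pos hJpos hEpos).le
  have hdet : LinearMap.det T = Real.sqrt J := by
    rw [hT, Matrix.toEuclideanLin_eq_toLin, LinearMap.det_toLin, hA, Matrix.det_fin_two_of,
      Real.sqrt_div hJpos.le]
    field_simp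
    ring
  have hnorm : ∀ y : E2, ‖T y‖ ^ 2 = (y 0 • L₀ + y 1 • L₁) ⬝ᵥ (y 0 • L₀ + y 1 • L₁) := by
    intro y
    rw [hQ, EuclideanSpace.norm_sq_eq, Fin.sum_univ_two]
    have h0 : T y 0 = Real.sqrt E * y 0 + F / Real.sqrt E * y 1 := by
      rw [hT, hA]
      simp [Matrix.toEuclideanLin_apply, dotProduct, Fin.sum_univ_two]
    have h1 : T y 1 = Real.sqrt (J / E) * y 1 := by
      rw [hT, hA]
      simp [Matrix.toEuclideanLin_apply, dotProduct, Fin.sum_univ_two]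
    rw [h0, h1, Real.norm_eq_abs, Real.norm_eq_abs, sq_abs, sq_abs, mul_pow, hsJ, hJE]
    have h2 : (Real.sqrt E * y 0 + F / Real.sqrt E * y 1) ^ 2 =
        E * y 0 ^ 2 + 2 * F * y 0 * y 1 + F ^ 2 / E * y 1 ^ 2 := by
      have h3 : (Real.sqrt E * y 0 + F / Real.sqrt E * y 1) ^ 2 =
          Real.sqrt E ^ 2 * y 0 ^ 2 + 2 * (Real.sqrt E / Real.sqrt E) * F * y 0 * y 1 +
          F ^ 2 / Real.sqrt E ^ 2 * y 1 ^ 2 := by
        ring
      rw [h3, hsE, div_self hsE0]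
      ring
    rw [h2]
    field_simp
    ring
  have hsJ0 : Real.sqrt J ≠ 0 := (Real.sqrt_pos.2 hJpos).ne'
  have hdet0 : LinearMap.det T ≠ 0 := by
    rw [hdet]
    exact hsJ0
  have hmap := MeasureTheory.Measure.map_linearMap_addHaar_eq_smul_addHaar
    (volume : Measure E2) hdet0
  have hTc : Continuous T := LinearMap.continuous_of_finiteDimensional T
  have hc : ENNReal.ofReal |(LinearMap.det T)⁻¹| ≠ ⊤ := ENNReal.ofReal_ne_top
  have hgm : AEStronglyMeasurable (fun z : E2 => 1 / (‖z‖ ^ 2 + 1) ^ 2) (Measure.map T volume) := by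
    refine Continuous.aestronglyMeasurable ?_
    refine continuous_const.div (((continuous_norm.pow 2).add continuous_const).pow 2) fun z => ?_
    positivity
  have hfun : (fun y : E2 => 1 / ((y 0 • L₀ + y 1 • L₁) ⬝ᵥ (y 0 • L₀ + y 1 • L₁) + 1) ^ 2) =
      (fun z : E2 => 1 / (‖z‖ ^ 2 + 1) ^ 2) ∘ T := by
    funext y
    rw [Function.comp_apply, hnorm]
  have hint : Integrable
      (fun y : E2 => 1 / ((y 0 • L₀ + y 1 • L₁) ⬝ᵥ (y 0 • L₀ + y 1 • L₁) + 1) ^ 2) := by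
    rw [hfun, ← integrable_map_measure hgm hTc.measurable.aemeasurable, hmap]
    exact radial_int.smul_measure hc
  have hval : ∫ y : E2, 1 / ((y 0 • L₀ + y 1 • L₁) ⬝ᵥ (y 0 • L₀ + y 1 • L₁) + 1) ^ 2 =
      Real.pi / Real.sqrt J := by
    have h1 : ∫ y : E2, 1 / ((y 0 • L₀ + y 1 • L₁) ⬝ᵥ (y 0 • L₀ + y 1 • L₁) + 1) ^ 2 =
        ∫ y : E2, (fun z : E2 => 1 / (‖z‖ ^ 2 + 1) ^ 2) (T y) := by
      rw [hfun]
      rfl
    rw [h1, ← integral_map hTc.measurable.aemeasurable hgm, hmap, integral_smul_measure, hdet,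
      radial_val, abs_of_pos (inv_pos.2 (Real.sqrt_pos.2 hJpos)),
      ENNReal.toReal_ofReal (inv_nonneg.2 (Real.sqrt_nonneg _)), smul_eq_mul]
    ring
  refine ⟨hint, ?_, ?_⟩
  · rw [← hJ]
    exact hval
  · -- the half plane
    obtain ⟨f, hf⟩ : ∃ f : E2 → ℝ,
      f = fun y : E2 => 1 / ((y 0 • L₀ + y 1 • L₁) ⬝ᵥ (y 0 • L₀ + y 1 • L₁) + 1) ^ 2 := ⟨_, rfl⟩
    have hfneg : ∀ y, f (-y) = f y := by
      intro y
      rw [hf]
      dsimp only
      rw [hQ, hQ]
      congr 2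
      simp only [PiLp.neg_apply]
      ring
    have hmeas : MeasurableSet {y : E2 | 0 < y 0} :=
      measurableSet_lt measurable_const (by fun_prop)
    have hmeas' : MeasurableSet {y : E2 | y 0 < 0} :=
      measurableSet_lt (by fun_prop) measurable_const
    have hsym : ∫ y in {y : E2 | 0 < y 0}, f y = ∫ y in {y : E2 | y 0 < 0}, f y := by
      rw [← integral_indicator hmeas, ← integral_indicator hmeas',
        ← integral_neg_eq_self]
      refine integral_congr_ae (Eventually.of_forall fun y => ?_)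
      simp only [Set.indicator, Set.mem_ofPred_eq, PiLp.neg_apply, neg_pos, hfneg]
    have hnull : (volume : Measure E2) {y : E2 | y 0 = 0} = 0 := by
      have h1 := MeasureTheory.Measure.addHaar_submodule (volume : Measure E2)
        (LinearMap.ker ((EuclideanSpace.proj 0 : E2 →L[ℝ] ℝ) : E2 →ₗ[ℝ] ℝ)) (by
          intro h
          have h2 : (EuclideanSpace.single 0 (1 : ℝ) : E2) ∈
            LinearMap.ker ((EuclideanSpace.proj 0 : E2 →L[ℝ] ℝ) : E2 →ₗ[ℝ] ℝ) := by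
            rw [h]
            trivial
          rw [LinearMap.mem_ker] at h2
          simp at h2)
      exact h1
    have hcompl : ∫ y in {y : E2 | 0 < y 0}ᶜ, f y = ∫ y in {y : E2 | y 0 < 0}, f y := by
      refine setIntegral_congr_set ?_
      have h1 : ∀ᵐ y : E2, y 0 ≠ 0 := by
        rw [ae_iff]
        simpa using hnull
      filter_upwards [h1] with y hy
      apply propext
      change ¬ (0 < y 0) ↔ y 0 < 0
      rw [not_lt]
      exact ⟨fun h => lt_of_le_of_ne h hy, fun h => h.le⟩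
    have hadd := integral_add_compl hmeas (hf ▸ hint : Integrable f)
    rw [hcompl, ← hsym] at hadd
    have hval' : ∫ y, f y = Real.pi / Real.sqrt J := by
      rw [hf]
      exact hval
    rw [hval'] at hadd
    rw [← hJ]
    have hgoal : ∫ y in {y : E2 | 0 < y 0}, f y = Real.pi / 2 / Real.sqrt J := by
      have h3 : Real.pi / 2 / Real.sqrt J = (Real.pi / Real.sqrt J) / 2 := by ring
      rw [h3]
      linarith
    rw [hf] at hgoal
    exact hgoal

end Pool.Agent.H67.AR
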