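import Pool.Agent.H61.AR.Targets

/-!
# The area of surfaces of constant mean curvature spanning a circle, row PS
-/

set_option autoImplicit false

open Set Function MeasureTheory Filter Topology
open scoped Manifold ContDiff Matrix Pointwise

namespace Pool.Agent.H67.AR

open Pool.Agent.H61.AR Pool.Agent.H60.CM

private theorem lim (f : E2 → ℝ) (hf : Integrable f) (S : ℝ → Set E2) (T : Set E2)
    (hS : ∀ R, MeasurableSet (S R)) (hT : MeasurableSet T) (hsub : ∀ R, S R ⊆ T)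
    (hex : ∀ y ∈ T, ∀ᶠ R in atTop, y ∈ S R) :
    Tendsto (fun R => ∫ y in S R, f y) atTop (𝓝 (∫ y in T, f y)) := by
  have h1 : ∀ R, ∫ y in S R, f y = ∫ y, (S R).indicator f y :=
    fun R => (integral_indicator (hS R)).symm
  have h2 : ∫ y in T, f y = ∫ y, T.indicator f y := (integral_indicator hT).symm
  simp only [h1, h2]
  refine tendsto_integral_filter_of_dominated_convergence (fun y => ‖f y‖) ?_ ?_ hf.norm ?_
  · exact Eventually.of_forall fun R => (hf.indicator (hS R)).aestronglyMeasurable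
  · refine Eventually.of_forall fun R => Eventually.of_forall fun y => ?_
    exact norm_indicator_le_norm_self f y
  · refine Eventually.of_forall fun y => ?_
    by_cases hy : y ∈ T
    · refine tendsto_const_nhds.congr' ?_
      filter_upwards [hex y hy] with R hR
      rw [Set.indicator_of_mem hR, Set.indicator_of_mem hy]
    · rw [Set.indicator_of_notMem hy]
      refine tendsto_const_nhds.congr' ?_
      refine Eventually.of_forall fun R => ?_
      change (0 : ℝ) = (S R).indicator f y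
      rw [Set.indicator_of_notMem fun h => hy (hsub R h)]

private theorem smul_mem (c : ℝ) (y : E2) (i : Fin 2) : (c⁻¹ • y) i = y i / c := by
  rw [PiLp.smul_apply, smul_eq_mul]
  ring

private theorem scB (c a : ℝ) (hc : 0 < c) : c • Bx a = Bx (c * a) := by
  ext y
  rw [Set.mem_smul_set_iff_inv_smul_mem₀ hc.ne']
  simp only [Bx, Set.mem_ofPred_eq, smul_mem c, abs_div, abs_of_pos hc, div_lt_iff₀ hc,
    mul_comm a c]

private theorem scQ (c a : ℝ) (hc : 0 < c) : c • Qi a = Qi (c * a) := by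
  ext y
  rw [Set.mem_smul_set_iff_inv_smul_mem₀ hc.ne']
  simp only [Qi, Set.mem_ofPred_eq, smul_mem c, abs_div, abs_of_pos hc, div_lt_iff₀ hc,
    mul_comm a c, div_pos_iff_of_pos_right hc]

private theorem main (Q : E2 → ℝ) (hQ : ∀ (c : ℝ) (y : E2), Q (c • y) = c ^ 2 * Q y)
    (hQ0 : ∀ y, 0 ≤ Q y)
    (hf : Integrable (fun y : E2 => 1 / (Q y + 1) ^ 2)) (S : ℝ → Set E2) (T : Set E2)
    (hS : ∀ R, MeasurableSet (S R)) (hT : MeasurableSet T) (hsub : ∀ R, S R ⊆ T)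
    (hex : ∀ y ∈ T, ∀ᶠ R in atTop, y ∈ S R) (hsc : ∀ c a, 0 < c → c • S a = S (c * a))
    (ρ m : ℝ) (hρ : 0 < ρ) (hm : 0 < m) (K : ℝ) (hK : ∫ y in T, 1 / (Q y + 1) ^ 2 = K) :
    Tendsto (fun ε : ℝ => ∫ y in S ρ, ε ^ 2 / (m * Q y + ε ^ 2) ^ 2) (𝓝[>] 0) (𝓝 (K / m)) := by
  have hsm : 0 < Real.sqrt m := Real.sqrt_pos.2 hm
  have hsm2 : Real.sqrt m ^ 2 = m := Real.sq_sqrt hm.le
  have h1 : ∀ ε : ℝ, 0 < ε → ∫ y in S ρ, ε ^ 2 / (m * Q y + ε ^ 2) ^ 2 =
      (∫ y in S (ρ * Real.sqrt m * ε⁻¹), 1 / (Q y + 1) ^ 2) / m := by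
    intro ε hε
    have hc : 0 < ε / Real.sqrt m := div_pos hε hsm
    have h2 := Measure.setIntegral_comp_smul_of_pos (volume : Measure E2)
      (fun y : E2 => ε ^ 2 / (m * Q y + ε ^ 2) ^ 2) (S (ρ * Real.sqrt m * ε⁻¹)) hc
    have h3 : ε / Real.sqrt m * (ρ * Real.sqrt m * ε⁻¹) = ρ := by
      field_simp
    rw [hsc _ _ hc, h3] at h2
    have h4 : Module.finrank ℝ E2 = 2 := finrank_euclideanSpace_fin
    have h5 : ∀ y : E2, ε ^ 2 / (m * Q ((ε / Real.sqrt m) • y) + ε ^ 2) ^ 2 =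
        (ε ^ 2)⁻¹ * (1 / (Q y + 1) ^ 2) := by
      intro y
      have h6 := hQ0 y
      have h7 : m * Q ((ε / Real.sqrt m) • y) + ε ^ 2 = ε ^ 2 * (Q y + 1) := by
        rw [hQ, div_pow, hsm2]
        field_simp
      rw [h7]
      have h8 : Q y + 1 ≠ 0 := by positivity
      field_simp
    simp only [h5] at h2
    rw [h4, integral_const_mul, smul_eq_mul, div_pow, hsm2] at h2
    have h9 : (ε ^ 2 / m)⁻¹ ≠ 0 := by positivity
    have h10 : ∫ y in S ρ, ε ^ 2 / (m * Q y + ε ^ 2) ^ 2 =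
        (ε ^ 2 / m) * ((ε ^ 2)⁻¹ * ∫ y in S (ρ * Real.sqrt m * ε⁻¹), 1 / (Q y + 1) ^ 2) := by
      rw [h2]
      field_simp
    rw [h10]
    field_simp
  have h2 : Tendsto (fun ε : ℝ => ρ * Real.sqrt m * ε⁻¹) (𝓝[>] 0) atTop :=
    tendsto_inv_nhdsGT_zero.const_mul_atTop (mul_pos hρ hsm)
  have h3 := ((lim _ hf S T hS hT hsub hex).comp h2).div_const m
  rw [hK] at h3
  refine h3.congr' ?_
  filter_upwards [self_mem_nhdsWithin] with ε hε
  rw [h1 ε hε]
  rfl

theorem pf_PS (h1 : T_PI) : T_PS := by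
  intro L₀ L₁ ρ m hL hρ hm
  obtain ⟨hint, hv1, hv2⟩ := h1 L₀ L₁ hL
  obtain ⟨Q, hQd⟩ : ∃ Q : E2 → ℝ,
    ∀ y, Q y = (y 0 • L₀ + y 1 • L₁) ⬝ᵥ (y 0 • L₀ + y 1 • L₁) := ⟨_, fun _ => rfl⟩
  simp only [← hQd] at hint hv1 hv2 ⊢
  have hQ : ∀ (c : ℝ) (y : E2), Q (c • y) = c ^ 2 * Q y := by
    intro c y
    rw [hQd, hQd]
    simp only [dotProduct, Fin.sum_univ_three, Pi.add_apply, Pi.smul_apply, PiLp.smul_apply,
      smul_eq_mul]
    ring
  have hQ0 : ∀ y, 0 ≤ Q y := by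
    intro y
    rw [hQd]
    simp only [dotProduct]
    exact Finset.sum_nonneg fun i _ => mul_self_nonneg _
  have hm0 : Measurable fun y : E2 => y 0 := by fun_prop
  have hm1 : Measurable fun y : E2 => y 1 := by fun_prop
  refine ⟨?_, ?_⟩
  · have h := main Q hQ hQ0 hint Bx univ (fun R => ?_) MeasurableSet.univ (fun R => subset_univ _)
      (fun y _ => ?_) scB ρ m hρ hm
      (Real.pi / Real.sqrt ((L₀ ⨯₃ L₁) ⬝ᵥ (L₀ ⨯₃ L₁)))
      (by rw [Measure.restrict_univ]; exact hv1)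
    · have h2 : Real.pi / Real.sqrt ((L₀ ⨯₃ L₁) ⬝ᵥ (L₀ ⨯₃ L₁)) / m =
        Real.pi / (m * Real.sqrt ((L₀ ⨯₃ L₁) ⬝ᵥ (L₀ ⨯₃ L₁))) := by
        rw [div_div, mul_comm m]
      rw [h2] at h
      exact h
    · exact (measurableSet_lt hm0.abs measurable_const).inter
        (measurableSet_lt hm1.abs measurable_const)
    · filter_upwards [eventually_gt_atTop |y 0|, eventually_gt_atTop |y 1|] with R hR0 hR1
      exact ⟨hR0, hR1⟩
  · have h := main Q hQ hQ0 hint Qi {y : E2 | 0 < y 0} (fun R => ?_)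
      (measurableSet_lt measurable_const hm0) (fun R y hy => hy.1)
      (fun y hy => ?_) scQ ρ m hρ hm _ hv2
    · have h2 : Real.pi / 2 / Real.sqrt ((L₀ ⨯₃ L₁) ⬝ᵥ (L₀ ⨯₃ L₁)) / m =
        Real.pi / 2 / (m * Real.sqrt ((L₀ ⨯₃ L₁) ⬝ᵥ (L₀ ⨯₃ L₁))) := by
        rw [div_div, mul_comm m]
      rw [h2] at h
      exact h
    · exact (measurableSet_lt measurable_const hm0).inter
        ((measurableSet_lt hm0 measurable_const).inter
        (measurableSet_lt hm1.abs measurable_const))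
    · filter_upwards [eventually_gt_atTop (y 0), eventually_gt_atTop |y 1|] with R hR0 hR1
      exact ⟨hy, hR0, hR1⟩

end Pool.Agent.H67.AR
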